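import Pool.Agent.Results.MP_095559_gt.NoTheta

/-!
# Closed geodesic nets with an odd bundle of edges

In every dimension `n ≥ 1` there is one closed Riemannian manifold, the real projective space in its
Veronese embedding, in which no geodesic net (immersed or embedded, with arbitrary multiplicities) has
a balanced vertex `p` with a single neighbour `q ≠ p`, joined to `q` by an odd number of edges; loops
at `p` are allowed.  In particular it contains no closed geodesic net modelled on the graph with two
vertices and `k` edges between them, for any odd `k`.  The case `k = 3` is the theta graph.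
-/

set_option autoImplicit false

noncomputable section
open scoped ContDiff InnerProductSpace Topology

namespace Pool.Agent.Results.MP_095559_gt.OddBundles

open Pool.Agent.Results.MP_095559_gt.NoTheta Pool.Agent.Helper544.Veronese

variable {ι : Type} [Fintype ι]

/-- A balanced vertex `p` with a single neighbour: two distinct points `p`, `q` of `M`, `k` geodesic
segments from `p` to `q` with multiplicities, `a` geodesic loops at `p` with real weights, such that
the unit tangent vectors at `p` pointing away from `p` (every edge from `p` to `q` counted with its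
multiplicity, both ends of every loop counted with its weight) sum to zero.  The segments and loops
may intersect themselves and each other and may coincide, and nothing is required at `q`. -/
structure OneNeighbourVertex (M : Set (EuclideanSpace ℝ ι)) (k a : ℕ) where
  p : EuclideanSpace ℝ ι
  q : EuclideanSpace ℝ ι
  p_mem : p ∈ M
  q_mem : q ∈ M
  p_ne_q : p ≠ q
  /-- lengths of the edges from `p` to `q` -/
  len : Fin k → ℝ
  /-- the edges from `p` to `q` -/
  γ : Fin k → ℝ → EuclideanSpace ℝ ι
  /-- their velocities -/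
  vel : Fin k → ℝ → EuclideanSpace ℝ ι
  /-- their multiplicities -/
  mult : Fin k → ℕ
  geodesic : ∀ i, IsGeodesicSegment M (len i) (γ i) (vel i)
  start : ∀ i, γ i 0 = p
  finish : ∀ i, γ i (len i) = q
  /-- lengths of the loops at `p` -/
  loopLen : Fin a → ℝ
  /-- the loops at `p` -/
  loop : Fin a → ℝ → EuclideanSpace ℝ ι
  /-- their velocities -/
  loopVel : Fin a → ℝ → EuclideanSpace ℝ ι
  /-- their weights -/
  weight : Fin a → ℝ
  loop_geodesic : ∀ j, IsGeodesicSegment M (loopLen j) (loop j) (loopVel j)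
  loop_start : ∀ j, loop j 0 = p
  loop_finish : ∀ j, loop j (loopLen j) = p
  balanced : ∑ i, (mult i : ℝ) • vel i 0 +
    ∑ j, weight j • (loopVel j 0 + - loopVel j (loopLen j)) = 0

/-- A closed geodesic net modelled on the graph with two vertices and `k` edges joining them: two
distinct points `p`, `q` and `k` geodesic segments from `p` to `q` whose unit tangent vectors pointing
away from `p` sum to zero, and likewise at `q`.  The segments are not required to be embedded or
disjoint. -/
structure BundleNet (M : Set (EuclideanSpace ℝ ι)) (k : ℕ) where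
  p : EuclideanSpace ℝ ι
  q : EuclideanSpace ℝ ι
  p_mem : p ∈ M
  q_mem : q ∈ M
  p_ne_q : p ≠ q
  len : Fin k → ℝ
  γ : Fin k → ℝ → EuclideanSpace ℝ ι
  vel : Fin k → ℝ → EuclideanSpace ℝ ι
  geodesic : ∀ i, IsGeodesicSegment M (len i) (γ i) (vel i)
  start : ∀ i, γ i 0 = p
  finish : ∀ i, γ i (len i) = q
  balanced_p : ∑ i, vel i 0 = 0
  balanced_q : ∑ i, - vel i (len i) = 0

/-- A geodesic of the projective space that returns to its starting point returns with its initial
velocity. -/
theorem loop_vel {m : ℕ} {L : ℝ} (hL : 0 < L) {γ vel acc : ℝ → EE m}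
    (hmem : ∀ t ∈ Set.Icc 0 L, γ t ∈ RP m)
    (hv : ∀ t ∈ Set.Icc 0 L, HasDerivWithinAt γ (vel t) (Set.Icc 0 L) t)
    (ha : ∀ t ∈ Set.Icc 0 L, HasDerivWithinAt vel (acc t) (Set.Icc 0 L) t)
    (hg : ∀ t ∈ Set.Icc 0 L, ∀ w ∈ tangent (RP m) (γ t), ⟪acc t, w⟫_ℝ = 0)
    (h0 : γ L = γ 0) : vel L = vel 0 := by
  have h0m : (0:ℝ) ∈ Set.Icc 0 L := ⟨le_rfl, hL.le⟩
  have hLm : L ∈ Set.Icc 0 L := ⟨hL.le, le_rfl⟩
  have hP := DM_of hv
  have hP' := DM_of ha
  have hproj : ∀ t ∈ Set.Icc 0 L, mat (γ t) * mat (γ t) = mat (γ t) := by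
    intro t ht
    obtain ⟨w, hw, hw'⟩ := mem_RP.1 (hmem t ht)
    rw [← hw']
    exact mat_ver_mul w hw
  have hsymm : ∀ t ∈ Set.Icc 0 L, (mat (γ t)).transpose = mat (γ t) := by
    intro t ht
    obtain ⟨w, hw, hw'⟩ := mem_RP.1 (hmem t ht)
    rw [← hw']
    exact mat_ver_symm w
  have hvs : ∀ t ∈ Set.Icc 0 L, (mat (vel t)).transpose = mat (vel t) :=
    hP.transpose.unique hL hP hsymm
  have has : ∀ t ∈ Set.Icc 0 L, (mat (acc t)).transpose = mat (acc t) :=
    hP'.transpose.unique hL hP' hvs
  have hcomm : ∀ t ∈ Set.Icc 0 L, mat (acc t) * mat (γ t) = mat (γ t) * mat (acc t) := by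
    intro t ht
    obtain ⟨w, hw, hw'⟩ := mem_RP.1 (hmem t ht)
    have := hg t ht
    rw [← hw'] at this ⊢
    exact comm_of_normal hw (has t ht) this
  have hH : ∀ t ∈ Set.Icc 0 L, mat (vel t) * mat (γ t) + mat (γ t) * mat (vel t) = mat (vel t) :=
    (hP.mul hP).unique hL hP hproj
  have hΩ : ∀ t ∈ Set.Icc 0 L, mat (vel t) * mat (γ t) - mat (γ t) * mat (vel t) =
      mat (vel 0) * mat (γ 0) - mat (γ 0) * mat (vel 0) := by
    intro t ht
    ext i j
    refine const_of_zero (f := fun t => (mat (vel t) * mat (γ t) - mat (γ t) * mat (vel t)) i j)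
      ?_ hL t ht
    intro s hs
    have h1 := ((hP'.mul hP).sub (hP.mul hP')) s hs i j
    have h2 : (mat (acc s) * mat (γ s) + mat (vel s) * mat (vel s) -
        (mat (vel s) * mat (vel s) + mat (γ s) * mat (acc s))) = 0 := by
      rw [hcomm s hs]; abel
    beta_reduce at h1
    rw [h2] at h1
    exact h1
  have e1 := (alg (hproj L hLm) (hH L hLm)).2
  have e0 := (alg (hproj 0 h0m) (hH 0 h0m)).2
  rw [hΩ L hLm, h0, e0] at e1
  ext ⟨i, j⟩
  have := congrFun (congrFun e1 i) j
  rw [mat_apply, mat_apply] at this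
  exact this.symm

/-- The total multiplicity of the edges to the single neighbour is even. -/
theorem even_mult (m : ℕ) {k a : ℕ} (T : OneNeighbourVertex (RP m) k a) :
    Even (∑ i, T.mult i) := by
  obtain ⟨x, hx, hxp⟩ := mem_RP.1 T.p_mem
  obtain ⟨z, hz, hzq⟩ := mem_RP.1 T.q_mem
  have key : ∀ i, 2 * (∑ l, z l * ∑ j, T.vel i 0 (l, j) * x j) ^ 2 = 1 - (∑ l, z l * x l) ^ 2 := by
    intro i
    obtain ⟨acc, hacc⟩ := (T.geodesic i).geodesic
    have g := T.geodesic i
    exact one_curve g.len_pos g.mem g.hasVelocity (fun t ht => (hacc t ht).1)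
      (g.unit_speed 0 ⟨le_rfl, g.len_pos.le⟩) (fun t ht w hw => (hacc t ht).2 w hw) hx hz
      ((T.start i).trans hxp.symm) ((T.finish i).trans hzq.symm)
  have hloop : ∀ j, T.loopVel j 0 + - T.loopVel j (T.loopLen j) = 0 := by
    intro j
    obtain ⟨acc, hacc⟩ := (T.loop_geodesic j).geodesic
    have g := T.loop_geodesic j
    rw [loop_vel g.len_pos g.mem g.hasVelocity (fun t ht => (hacc t ht).1)
      (fun t ht w hw => (hacc t ht).2 w hw) ((T.loop_finish j).trans (T.loop_start j).symm)]
    exact add_neg_cancel _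
  have hbal : ∑ i, (T.mult i : ℝ) • T.vel i 0 = 0 := by
    have h1 := T.balanced
    rwa [Finset.sum_eq_zero (s := Finset.univ) (f := fun j => T.weight j •
      (T.loopVel j 0 + - T.loopVel j (T.loopLen j))) (fun j _ => by rw [hloop j, smul_zero]),
      add_zero] at h1
  have hsum : ∑ i, (T.mult i : ℝ) * (∑ l, z l * ∑ j, T.vel i 0 (l, j) * x j) = 0 := by
    have h1 : ∀ l j, ∑ i, (T.mult i : ℝ) * T.vel i 0 (l, j) = 0 := by
      intro l j
      have := congrArg (fun A : EE m => A (l, j)) hbal
      simpa using this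
    have h2 : ∀ i, (T.mult i : ℝ) * (∑ l, z l * ∑ j, T.vel i 0 (l, j) * x j) =
        ∑ l, ∑ j, z l * x j * ((T.mult i : ℝ) * T.vel i 0 (l, j)) := by
      intro i
      rw [Finset.mul_sum]
      refine Finset.sum_congr rfl fun l _ => ?_
      rw [Finset.mul_sum, Finset.mul_sum]
      refine Finset.sum_congr rfl fun j _ => ?_
      ring
    simp_rw [h2]
    rw [Finset.sum_comm]
    refine Finset.sum_eq_zero fun l _ => ?_
    rw [Finset.sum_comm]
    refine Finset.sum_eq_zero fun j _ => ?_
    rw [← Finset.mul_sum, h1, mul_zero]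
  have hne : (∑ l, z l * x l) ^ 2 ≠ 1 := by
    intro h
    exact T.p_ne_q (by rw [← hxp, ← hzq]; exact ver_eq_of hx hz h)
  obtain ⟨s, hs⟩ : ∃ s : Fin k → ℝ, s = fun i => ∑ l, z l * ∑ j, T.vel i 0 (l, j) * x j := ⟨_, rfl⟩
  obtain ⟨c, hc⟩ : ∃ c : ℝ, c = (∑ l, z l * x l) ^ 2 := ⟨_, rfl⟩
  have key' : ∀ i, 2 * (s i) ^ 2 = 1 - c := by
    intro i
    rw [hs, hc]
    exact key i
  have hsum' : ∑ i, (T.mult i : ℝ) * s i = 0 := by
    rw [hs]
    exact hsum
  rw [← hc] at hne
  rcases Nat.eq_zero_or_pos k with hk | hk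
  · subst hk
    simp
  have hr : 0 < (1 - c) / 2 := by
    have h1 := key' ⟨0, hk⟩
    have h2 : 0 ≤ (1 - c) / 2 := by
      have := sq_nonneg (s ⟨0, hk⟩)
      linarith
    refine lt_of_le_of_ne h2 fun h3 => hne ?_
    linarith
  have hsq : 0 < Real.sqrt ((1 - c) / 2) := Real.sqrt_pos.2 hr
  have hε : ∀ i, ∃ ε : ℤ, (ε = 1 ∨ ε = -1) ∧ s i = ε * Real.sqrt ((1 - c) / 2) := by
    intro i
    have h1 : (s i) ^ 2 = (Real.sqrt ((1 - c) / 2)) ^ 2 := by
      rw [Real.sq_sqrt hr.le]
      have := key' i
      linarith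
    rcases sq_eq_sq_iff_eq_or_eq_neg.1 h1 with h | h
    · exact ⟨1, Or.inl rfl, by rw [h]; push_cast; ring⟩
    · exact ⟨-1, Or.inr rfl, by rw [h]; push_cast; ring⟩
  choose ε hε1 hε2 using hε
  have h3 : ((∑ i, (T.mult i : ℤ) * ε i : ℤ) : ℝ) * Real.sqrt ((1 - c) / 2) = 0 := by
    rw [← hsum']
    push_cast
    rw [Finset.sum_mul]
    refine Finset.sum_congr rfl fun i _ => ?_
    rw [hε2 i]
    ring
  have h4 : (∑ i, (T.mult i : ℤ) * ε i : ℤ) = 0 := by
    rcases mul_eq_zero.1 h3 with h | h
    · exact_mod_cast h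
    · exact absurd h hsq.ne'
  have h5 : (2 : ℤ) ∣ (∑ i, (T.mult i : ℤ)) - ∑ i, (T.mult i : ℤ) * ε i := by
    rw [← Finset.sum_sub_distrib]
    refine Finset.dvd_sum fun i _ => ?_
    rcases hε1 i with h | h
    · rw [h]
      exact ⟨0, by ring⟩
    · rw [h]
      exact ⟨(T.mult i : ℤ), by ring⟩
  rw [h4, sub_zero] at h5
  have h6 : (2 : ℤ) ∣ ((∑ i, T.mult i : ℕ) : ℤ) := by
    push_cast
    exact h5
  exact even_iff_two_dvd.2 (by exact_mod_cast h6)

/-- In every dimension `n ≥ 1` there is a compact connected smooth `n`-dimensional submanifold `M` of a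
Euclidean space such that, for the induced Riemannian metric,

* at every balanced vertex `p` with a single neighbour `q ≠ p`, in any geodesic net, the number of
  edges from `p` to `q`, counted with multiplicities, is even, whatever loops there are at `p`;
* for every odd `k`, `M` contains no closed geodesic net modelled on the graph with two vertices and
  `k` edges joining them;
* in particular `M` contains no closed geodesic net modelled on the theta graph. -/
theorem result : ∀ n : ℕ, 1 ≤ n → ∃ (ι : Type) (_ : Fintype ι) (M : Set (EuclideanSpace ℝ ι)),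
    IsCompact M ∧ IsConnected M ∧ IsSmoothSubmanifold n M ∧
      (∀ (k a : ℕ) (T : OneNeighbourVertex M k a), Even (∑ i, T.mult i)) ∧
      (∀ k : ℕ, Odd k → IsEmpty (BundleNet M k)) ∧ IsEmpty (ThetaNet M) := by
  intro n hn
  refine ⟨Fin (n + 1) × Fin (n + 1), inferInstance, RP (n + 1), RP_compact,
    RP_connected n hn, ?_, fun k a T => even_mult (n + 1) T, fun k hk => ⟨fun T => ?_⟩,
    no_theta (n + 1)⟩
  · intro P hP
    obtain ⟨U, W, φ, ρ, h1, h2, h3, h4, h5, h6, h7⟩ := exists_chart n hP
    exact ⟨U, W, φ, ρ, h1, h2, h3, h4, h5, h6, h7⟩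
  · have h := even_mult (n + 1) (k := k) (a := 0)
      { p := T.p
        q := T.q
        p_mem := T.p_mem
        q_mem := T.q_mem
        p_ne_q := T.p_ne_q
        len := T.len
        γ := T.γ
        vel := T.vel
        mult := fun _ => 1
        geodesic := T.geodesic
        start := T.start
        finish := T.finish
        loopLen := fun j => j.elim0
        loop := fun j => j.elim0
        loopVel := fun j => j.elim0
        weight := fun j => j.elim0
        loop_geodesic := fun j => j.elim0
        loop_start := fun j => j.elim0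
        loop_finish := fun j => j.elim0
        balanced := by
          have h1 := T.balanced_p
          simpa using h1 }
    simp only [Finset.sum_const, Finset.card_univ, Fintype.card_fin, smul_eq_mul, mul_one] at h
    exact (Nat.not_even_iff_odd.2 hk) h

end Pool.Agent.Results.MP_095559_gt.OddBundles
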